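import Pool.Agent.H37.CTN.Stmts

namespace Pool.CND


theorem ar1_thm : S_AR1 := by
  intro q n N hq hn h
  have hqz : (1 : ℤ) < q := by exact_mod_cast hq
  have key : ∀ m : ℕ, 1 ≤ m → m < n → (2 ≤ m ∨ n = 3) → ∃ z : ℤ,
      (N : ℤ) * ((∑ i ∈ Finset.range m, (q : ℤ) ^ i) + 1) =
        z * ((q : ℤ) - 1) * (∑ i ∈ Finset.range m, (q : ℤ) ^ i) := by
    intro m h1 h2 h3
    obtain ⟨z, hz⟩ := h m h1 h2 h3
    refine ⟨z, ?_⟩
    set g : ℤ := ∑ i ∈ Finset.range m, (q : ℤ) ^ i with hg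
    have hgm : g * ((q : ℤ) - 1) = (q : ℤ) ^ m - 1 := geom_sum_mul (q : ℤ) m
    have hgq : (g : ℚ) * ((q : ℚ) - 1) = (q : ℚ) ^ m - 1 := by exact_mod_cast hgm
    have hq0 : (q : ℚ) - 1 ≠ 0 := by
      have : (1 : ℚ) < q := by exact_mod_cast hq
      linarith
    have hqm : (1 : ℚ) < (q : ℚ) ^ m := one_lt_pow₀ (by exact_mod_cast hq) (by omega)
    have hg0 : (g : ℚ) ≠ 0 := by
      intro h0
      rw [h0, zero_mul] at hgq
      linarith
    rw [← hgq] at hz
    have h5 : (N : ℚ) * (g + 1) = z * ((q : ℚ) - 1) * g := by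
      rw [← hz]
      field_simp
    exact_mod_cast h5
  have ha : ((q : ℤ) - 1) ∣ N := by
    have e2 : ((q : ℤ) - 1) ∣ 3 * N := by
      obtain ⟨z, hz⟩ := key 2 (by norm_num) (by omega) (Or.inl le_rfl)
      have e : (∑ i ∈ Finset.range 2, (q : ℤ) ^ i) = q + 1 := by
        simp [Finset.sum_range_succ]; ring
      rw [e] at hz
      exact ⟨z * (q + 1) - N, by linear_combination hz⟩
    rcases Nat.lt_or_ge 3 n with h4 | h4
    · have e3 : ((q : ℤ) - 1) ∣ 4 * N := by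
        obtain ⟨z, hz⟩ := key 3 (by norm_num) (by omega) (Or.inl (by norm_num))
        have e : (∑ i ∈ Finset.range 3, (q : ℤ) ^ i) = q ^ 2 + q + 1 := by
          simp [Finset.sum_range_succ]; ring
        rw [e] at hz
        exact ⟨z * (q ^ 2 + q + 1) - N * (q + 2), by linear_combination hz⟩
      have := dvd_sub e3 e2
      rwa [show 4 * (N : ℤ) - 3 * N = N by ring] at this
    · have e1 : ((q : ℤ) - 1) ∣ 2 * N := by
        obtain ⟨z, hz⟩ := key 1 le_rfl (by omega) (Or.inr (by omega))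
        have e : (∑ i ∈ Finset.range 1, (q : ℤ) ^ i) = 1 := by simp
        rw [e] at hz
        exact ⟨z, by linear_combination hz⟩
      have := dvd_sub e2 e1
      rwa [show 3 * (N : ℤ) - 2 * N = N by ring] at this
  apply Finset.lcm_dvd
  intro m hm
  rw [Finset.mem_Icc] at hm
  have hcast : (((q ^ m - 1 : ℕ) : ℤ)) = (q : ℤ) ^ m - 1 := by
    have : 1 ≤ q ^ m := Nat.one_le_pow _ _ (by omega)
    push_cast [Nat.cast_sub this]
    ring
  rw [← Int.natCast_dvd_natCast, hcast]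
  by_cases h1 : m = 1
  · rw [h1, pow_one]
    exact ha
  obtain ⟨z, hz⟩ := key m hm.1 (by omega) (Or.inl (by omega))
  set g : ℤ := ∑ i ∈ Finset.range m, (q : ℤ) ^ i with hg
  have hgm : g * ((q : ℤ) - 1) = (q : ℤ) ^ m - 1 := geom_sum_mul (q : ℤ) m
  obtain ⟨N', hN'⟩ := ha
  rw [hN'] at hz ⊢
  have ha0 : (q : ℤ) - 1 ≠ 0 := by omega
  have h6 : N' * (g + 1) = z * g := by
    apply mul_left_cancel₀ ha0
    linear_combination hz
  rw [← hgm, mul_comm g]
  apply mul_dvd_mul_left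
  exact ⟨z - N', by linear_combination h6⟩

end Pool.CND
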